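import Pool.Agent.K4H65.EM.Spec

set_option autoImplicit false

namespace Pool.Agent.K4H65.EM

open Finset

theorem rand_sumU (n l : ℕ) (h : n < 2 ^ l) :
    ∑ U : Finset (Fin n), ((1:ℝ) / 2 ^ (l + 1)) ^ U.card ≤ 2 := by
  have h1 : ∑ U : Finset (Fin n), ((1:ℝ) / 2 ^ (l + 1)) ^ U.card
      = ((1:ℝ) / 2 ^ (l + 1) + 1) ^ n := by
    have := Fin.sum_pow_mul_eq_add_pow (n := n) ((1:ℝ) / 2 ^ (l + 1)) 1
    simpa using this
  rw [h1]
  have h2 : ((1:ℝ) / 2 ^ (l + 1) + 1) ^ n ≤ Real.exp ((1:ℝ) / 2 ^ (l + 1)) ^ n := by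
    apply pow_le_pow_left₀ (by positivity)
    exact Real.add_one_le_exp _
  rw [← Real.exp_nat_mul] at h2
  have h3 : (n:ℝ) * (1 / 2^(l+1)) ≤ 1/2 := by
    have h30 : (n:ℝ) ≤ 2^l := by exact_mod_cast h.le
    have h31 : (0:ℝ) < 2 ^ l := by positivity
    rw [pow_succ, mul_one_div, div_le_div_iff₀ (by positivity) (by norm_num)]
    nlinarith
  have h4 : Real.exp (1/2) ≤ 2 := by
    have h5 : (1/2 : ℝ) ≤ Real.log 2 := by
      have := Real.log_two_gt_d9
      linarith
    calc Real.exp (1/2) ≤ Real.exp (Real.log 2) := Real.exp_le_exp.mpr h5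
      _ = 2 := Real.exp_log (by norm_num)
  exact h2.trans ((Real.exp_le_exp.mpr h3).trans h4)

open Classical in
theorem rand_aux (n l L m : ℕ) (hn : n < 2 ^ l)
    (H1 : ∀ U : Finset (Fin n), L ≤ U.card →
      (univ.filter fun ω : Fin n × Fin n → Fin 1024 =>
        8 * 1024 * ((U ×ˢ U).filter fun e => (gr ω).Adj e.1 e.2).card < U.card ^ 2).card *
        2 ^ ((l + 1) * U.card + 3) ≤ 1024 ^ (n * n))
    (H2 : ∀ (U : Finset (Fin n)) (g : Fin m × Fin 2 → Fin n), L ≤ U.card → Function.Injective g →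
      (univ.filter fun ω : Fin n × Fin n → Fin 1024 =>
        ∀ j, U.card ≤ 64 * 1024 * cn (gr ω) U (g (j, 0)) (g (j, 1))).card *
        2 ^ ((l + 1) * U.card + 2 * m * l + 3) ≤ 1024 ^ (n * n)) :
    ∃ G : SimpleGraph (Fin n), P1 G L ∧ P2 G L m := by
  by_contra hno
  set B1 : Finset (Fin n) → Finset (Fin n × Fin n → Fin 1024) := fun U =>
    (univ.filter fun ω : Fin n × Fin n → Fin 1024 =>
        8 * 1024 * ((U ×ˢ U).filter fun e => (gr ω).Adj e.1 e.2).card < U.card ^ 2) with hB1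
  set B2 : Finset (Fin n) × (Fin m × Fin 2 → Fin n) → Finset (Fin n × Fin n → Fin 1024) := fun p =>
    (univ.filter fun ω : Fin n × Fin n → Fin 1024 =>
        ∀ j, p.1.card ≤ 64 * 1024 * cn (gr ω) p.1 (p.2 (j, 0)) (p.2 (j, 1))) with hB2
  have hcov : (univ : Finset (Fin n × Fin n → Fin 1024)) ⊆
      ((univ.filter fun U : Finset (Fin n) => L ≤ U.card).biUnion B1) ∪
      ((univ.filter fun p : Finset (Fin n) × (Fin m × Fin 2 → Fin n) =>
        L ≤ p.1.card ∧ Function.Injective p.2).biUnion B2) := by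
    intro ω _
    by_contra hω
    apply hno
    refine ⟨gr ω, ?_, ?_⟩
    · intro U hU
      by_contra hlt
      apply hω
      rw [mem_union]
      left
      rw [mem_biUnion]
      refine ⟨U, by simpa using hU, ?_⟩
      simp only [hB1, mem_filter, mem_univ, true_and]
      exact not_le.mp hlt
    · intro U hU g hg
      by_contra hlt
      push Not at hlt
      apply hω
      rw [mem_union]
      right
      rw [mem_biUnion]
      refine ⟨(U, g), by simpa using ⟨hU, hg⟩, ?_⟩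
      simp only [hB2, mem_filter, mem_univ, true_and]
      exact hlt
  have hcard : ((1024:ℝ) ^ (n * n)) ≤
      ∑ U ∈ univ.filter (fun U : Finset (Fin n) => L ≤ U.card), ((B1 U).card : ℝ) +
      ∑ p ∈ univ.filter (fun p : Finset (Fin n) × (Fin m × Fin 2 → Fin n) =>
        L ≤ p.1.card ∧ Function.Injective p.2), ((B2 p).card : ℝ) := by
    have h1 := card_le_card hcov
    have h2 := h1.trans ((card_union_le _ _).trans (add_le_add card_biUnion_le card_biUnion_le))
    rw [card_univ] at h2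
    have h3 : Fintype.card (Fin n × Fin n → Fin 1024) = 1024 ^ (n * n) := by
      rw [Fintype.card_fun, Fintype.card_fin, Fintype.card_prod, Fintype.card_fin]
    rw [h3] at h2
    exact_mod_cast h2
  have hpos : (0:ℝ) < 1024 ^ (n * n) := by positivity
  have hS1 : ∑ U ∈ univ.filter (fun U : Finset (Fin n) => L ≤ U.card), ((B1 U).card : ℝ) ≤
      1024 ^ (n * n) / 4 := by
    have h1 : ∀ U ∈ univ.filter (fun U : Finset (Fin n) => L ≤ U.card), ((B1 U).card : ℝ) ≤
        (1024 ^ (n * n) / 8) * ((1:ℝ) / 2 ^ (l + 1)) ^ U.card := by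
      intro U hU
      have hU' : L ≤ U.card := by simpa using hU
      have h2 := H1 U hU'
      have h3 : ((B1 U).card : ℝ) * 2 ^ ((l + 1) * U.card + 3) ≤ 1024 ^ (n * n) := by
        exact_mod_cast h2
      rw [one_div, inv_pow, ← pow_mul, div_mul_eq_mul_div, ← div_eq_mul_inv, div_div,
        le_div_iff₀ (by positivity)]
      rw [pow_add] at h3
      calc ((B1 U).card : ℝ) * (2 ^ ((l + 1) * U.card) * 8)
          = ((B1 U).card : ℝ) * (2 ^ ((l + 1) * U.card) * 2 ^ 3) := by norm_num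
        _ ≤ _ := h3
    calc ∑ U ∈ univ.filter (fun U : Finset (Fin n) => L ≤ U.card), ((B1 U).card : ℝ)
        ≤ ∑ U ∈ univ.filter (fun U : Finset (Fin n) => L ≤ U.card),
          (1024 ^ (n * n) / 8) * ((1:ℝ) / 2 ^ (l + 1)) ^ U.card := sum_le_sum h1
      _ ≤ ∑ U : Finset (Fin n), (1024 ^ (n * n) / 8) * ((1:ℝ) / 2 ^ (l + 1)) ^ U.card := by
          apply sum_le_sum_of_subset_of_nonneg (filter_subset _ _)
          intro U _ _
          positivity
      _ = (1024 ^ (n * n) / 8) * ∑ U : Finset (Fin n), ((1:ℝ) / 2 ^ (l + 1)) ^ U.card := by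
          rw [mul_sum]
      _ ≤ (1024 ^ (n * n) / 8) * 2 := by
          apply mul_le_mul_of_nonneg_left (rand_sumU n l hn) (by positivity)
      _ = 1024 ^ (n * n) / 4 := by ring
  have hS2 : ∑ p ∈ univ.filter (fun p : Finset (Fin n) × (Fin m × Fin 2 → Fin n) =>
        L ≤ p.1.card ∧ Function.Injective p.2), ((B2 p).card : ℝ) ≤ 1024 ^ (n * n) / 4 := by
    have h1 : ∀ p ∈ univ.filter (fun p : Finset (Fin n) × (Fin m × Fin 2 → Fin n) =>
        L ≤ p.1.card ∧ Function.Injective p.2), ((B2 p).card : ℝ) ≤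
        (1024 ^ (n * n) / 8) * (((1:ℝ) / 2 ^ (l + 1)) ^ p.1.card * (1 / 2 ^ (2 * m * l))) := by
      intro p hp
      have hp' : L ≤ p.1.card ∧ Function.Injective p.2 := by simpa using hp
      have h2 := H2 p.1 p.2 hp'.1 hp'.2
      have h3 : ((B2 p).card : ℝ) * 2 ^ ((l + 1) * p.1.card + 2 * m * l + 3) ≤
          1024 ^ (n * n) := by
        exact_mod_cast h2
      have h4 : (1024 ^ (n * n) / 8) * (((1:ℝ) / 2 ^ (l + 1)) ^ p.1.card *
          (1 / 2 ^ (2 * m * l))) = 1024 ^ (n * n) /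
            (2 ^ ((l + 1) * p.1.card) * 2 ^ (2 * m * l) * 8) := by
        rw [one_div, inv_pow, ← pow_mul]
        field_simp
      rw [h4, le_div_iff₀ (by positivity)]
      rw [pow_add, pow_add] at h3
      calc ((B2 p).card : ℝ) * (2 ^ ((l + 1) * p.1.card) * 2 ^ (2 * m * l) * 8)
          = ((B2 p).card : ℝ) * (2 ^ ((l + 1) * p.1.card) * 2 ^ (2 * m * l) * 2 ^ 3) := by norm_num
        _ ≤ _ := h3
    calc ∑ p ∈ univ.filter (fun p : Finset (Fin n) × (Fin m × Fin 2 → Fin n) =>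
        L ≤ p.1.card ∧ Function.Injective p.2), ((B2 p).card : ℝ)
        ≤ ∑ p ∈ univ.filter (fun p : Finset (Fin n) × (Fin m × Fin 2 → Fin n) =>
        L ≤ p.1.card ∧ Function.Injective p.2),
          (1024 ^ (n * n) / 8) * (((1:ℝ) / 2 ^ (l + 1)) ^ p.1.card * (1 / 2 ^ (2 * m * l))) :=
            sum_le_sum h1
      _ ≤ ∑ p : Finset (Fin n) × (Fin m × Fin 2 → Fin n),
          (1024 ^ (n * n) / 8) * (((1:ℝ) / 2 ^ (l + 1)) ^ p.1.card * (1 / 2 ^ (2 * m * l))) := by
          apply sum_le_sum_of_subset_of_nonneg (filter_subset _ _)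
          intro U _ _
          positivity
      _ = (1024 ^ (n * n) / 8) * ((∑ U : Finset (Fin n), ((1:ℝ) / 2 ^ (l + 1)) ^ U.card) *
            (∑ g : Fin m × Fin 2 → Fin n, (1 / 2 ^ (2 * m * l) : ℝ))) := by
          rw [← mul_sum, Fintype.sum_prod_type, Finset.sum_mul_sum]
      _ ≤ (1024 ^ (n * n) / 8) * (2 * 1) := by
          apply mul_le_mul_of_nonneg_left _ (by positivity)
          apply mul_le_mul (rand_sumU n l hn) _ (by positivity) (by norm_num)
          rw [sum_const, card_univ, Fintype.card_fun, Fintype.card_fin, Fintype.card_prod,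
            Fintype.card_fin, Fintype.card_fin, nsmul_eq_mul, mul_one_div,
            div_le_one (by positivity)]
          have h5 : n ^ (m * 2) ≤ 2 ^ (2 * m * l) := by
            calc n ^ (m * 2) ≤ (2 ^ l) ^ (m * 2) := Nat.pow_le_pow_left hn.le _
              _ = 2 ^ (2 * m * l) := by rw [← pow_mul]; congr 1; ring
          exact_mod_cast h5
      _ = 1024 ^ (n * n) / 4 := by ring
  linarith

theorem rand : S_T1 → S_T2 → S_RAND := by
  intro hT1 hT2 n l hl hn
  refine rand_aux n l (2 ^ 37 * l) (2 ^ 19 * l) hn ?_ ?_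
  · intro U hU
    convert hT1 n l U hl hU
  · intro U g hU hg
    convert hT2 n l U g hl hU hg

end Pool.Agent.K4H65.EM
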