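import Pool.Agent.K4H40.NS.Spec

set_option autoImplicit false

namespace Pool.Agent.K4H40.NS

open MvPolynomial Module

noncomputable section

theorem h39_finrank_hs (m e : ℕ) (K : Type) [Field K] :
    finrank K (hs m K e) = (m + e - 1).choose e := by
  classical
  have h1 : hs m K e = Submodule.span K (Set.range
      (fun d : ((Finset.univ : Finset (Fin m)).finsuppAntidiag e) => monomial d.1 (1:K))) := by
    unfold hs
    rw [homogeneousSubmodule_eq_finsupp_supported, AddMonoidAlgebra.supported_eq_span_single]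
    congr 1
    ext p
    simp only [Set.mem_image, Set.mem_ofPred_eq, Set.mem_range, Subtype.exists,
      MvPolynomial.single_eq_monomial, Finset.mem_finsuppAntidiag, Finset.subset_univ, and_true]
    constructor
    · rintro ⟨d, hd, rfl⟩
      exact ⟨d, by rw [← hd, Finsupp.degree_eq_sum], rfl⟩
    · rintro ⟨d, hd, rfl⟩
      exact ⟨d, by rw [← hd, Finsupp.degree_eq_sum], rfl⟩
  rw [h1, finrank_span_eq_card, Fintype.card_coe, Finset.card_finsuppAntidiag_nat_eq_choose,
    Finset.card_univ, Fintype.card_fin]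
  have h2 := (basisMonomials (Fin m) K).linearIndependent.comp
    (fun d : ((Finset.univ : Finset (Fin m)).finsuppAntidiag e) => d.1) Subtype.val_injective
  simpa [Function.comp_def] using h2

theorem h39_span1 (n : ℕ) (K : Type) [Field K] :
    hs n K 1 = Submodule.span K (Set.range (X : Fin n → R n K)) :=
  homogeneousSubmodule_one_eq_span_X

theorem h39_ext {n : ℕ} {K : Type} [Field K] {M : Type} [AddCommGroup M] [Module K M]
    (f g : hs n K 1 →ₗ[K] M)
    (h : ∀ v, f ⟨X v, isHomogeneous_X K v⟩ = g ⟨X v, isHomogeneous_X K v⟩) : f = g := by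
  have key : ∀ p (_ : p ∈ Submodule.span K (Set.range (X : Fin n → R n K)))
      (hp' : p ∈ hs n K 1), f ⟨p, hp'⟩ = g ⟨p, hp'⟩ := by
    intro p hp
    induction hp using Submodule.span_induction with
    | mem x hx => obtain ⟨v, rfl⟩ := hx; intro _; exact h v
    | zero =>
      intro hp'
      have : (⟨0, hp'⟩ : hs n K 1) = 0 := rfl
      rw [this, map_zero, map_zero]
    | add x y hx hy ihx ihy =>
      intro hp'
      have hx1 : x ∈ hs n K 1 := by rw [h39_span1]; exact hx
      have hy1 : y ∈ hs n K 1 := by rw [h39_span1]; exact hy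
      have : (⟨x + y, hp'⟩ : hs n K 1) = ⟨x, hx1⟩ + ⟨y, hy1⟩ := rfl
      rw [this, map_add, map_add, ihx hx1, ihy hy1]
    | smul a x hx ih =>
      intro hp'
      have hx1 : x ∈ hs n K 1 := by rw [h39_span1]; exact hx
      have : (⟨a • x, hp'⟩ : hs n K 1) = a • ⟨x, hx1⟩ := rfl
      rw [this, map_smul, map_smul, ih hx1]
  apply LinearMap.ext
  rintro ⟨p, hp⟩
  exact key p (by rw [← h39_span1]; exact hp) hp

theorem h39_homog_part {n r : ℕ} {K : Type} [Field K] (l : Fin r → R n K)
    (hl : ∀ i, l i ∈ hs n K 1) (d : ℕ) (f : R n K) (hf : f ∈ hs n K (d + 1))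
    (hf' : f ∈ Ideal.span (Set.range l)) :
    f ∈ Submodule.span K {p | ∃ i, ∃ g ∈ hs n K d, p = l i * g} := by
  obtain ⟨c, hc⟩ := (Ideal.mem_span_range_iff_exists_fun).mp hf'
  have h1 : ∀ i, homogeneousComponent (d + 1) (c i * l i) = homogeneousComponent d (c i) * l i := by
    intro i
    conv_lhs => rw [← sum_homogeneousComponent (c i)]
    rw [Finset.sum_mul, map_sum]
    have h2 : ∀ e ∈ Finset.range ((c i).totalDegree + 1),
        homogeneousComponent (d + 1) (homogeneousComponent e (c i) * l i) =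
          if e = d then homogeneousComponent d (c i) * l i else 0 := by
      intro e _
      have h3 : homogeneousComponent e (c i) * l i ∈ homogeneousSubmodule (Fin n) K (e + 1) :=
        (homogeneousComponent_isHomogeneous e (c i)).mul (hl i)
      rw [homogeneousComponent_of_mem h3]
      by_cases he : e = d
      · subst he; simp
      · rw [if_neg (by omega), if_neg he]
    rw [Finset.sum_congr rfl h2, Finset.sum_ite_eq']
    split_ifs with h4
    · rfl
    · have h5 : (c i).totalDegree < d := by simpa using h4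
      rw [homogeneousComponent_eq_zero _ _ h5, zero_mul]
  have h2 : f = ∑ i, homogeneousComponent d (c i) * l i := by
    have h3 := homogeneousComponent_eq_self (n := d + 1) (p := f) hf
    rw [← h3, ← hc, map_sum]
    exact Finset.sum_congr rfl fun i _ => h1 i
  rw [h2]
  apply Submodule.sum_mem
  intro i _
  exact Submodule.subset_span ⟨i, _, homogeneousComponent_mem d (c i), mul_comm _ _⟩

theorem dim : StDIM := by
  classical
  intro n r K _ l hl hli hr d
  have hfin : ∀ (m e : ℕ), Module.Finite K (hs m K e) := fun m e =>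
    Module.Finite.iff_fg.mpr (homogeneousSubmodule_fg (Fin m) K e)
  -- the linear forms
  let l' : Fin r → hs n K 1 := fun i => ⟨l i, hl i⟩
  have hli' : LinearIndependent K l' := by
    apply LinearIndependent.of_comp (hs n K 1).subtype
    exact hli
  let W0 : Submodule K (hs n K 1) := Submodule.span K (Set.range l')
  have hW0 : finrank K W0 = r := by
    rw [finrank_span_eq_card hli', Fintype.card_fin]
  have hH : finrank K (hs n K 1) = n := by
    rw [h39_finrank_hs]; simp
  have hH' : finrank K (hs (n - r) K 1) = n - r := by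
    rw [h39_finrank_hs]; simp
  have hq : finrank K (hs n K 1 ⧸ W0) = finrank K (hs (n - r) K 1) := by
    have := Submodule.finrank_quotient_add_finrank W0
    rw [hH']; omega
  let e : (hs n K 1 ⧸ W0) ≃ₗ[K] hs (n - r) K 1 := LinearEquiv.ofFinrankEq _ _ hq
  let π : hs n K 1 →ₗ[K] hs (n - r) K 1 := e.toLinearMap ∘ₗ W0.mkQ
  have hπs : Function.Surjective π := e.surjective.comp W0.mkQ_surjective
  have hπk : ∀ h, π h = 0 ↔ h ∈ W0 := by
    intro h
    simp [π]
  obtain ⟨σ, hσ⟩ := π.exists_rightInverse_of_surjective (LinearMap.range_eq_top.mpr hπs)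
  have hσ' : ∀ h, π (σ h) = h := fun h => LinearMap.congr_fun hσ h
  let φ : R n K →ₐ[K] R (n - r) K := aeval fun v => (π ⟨X v, isHomogeneous_X K v⟩ : R (n - r) K)
  let ψ : R (n - r) K →ₐ[K] R n K := aeval fun v => (σ ⟨X v, isHomogeneous_X K v⟩ : R n K)
  have hφ1 : ∀ h : hs n K 1, φ (h : R n K) = (π h : R (n - r) K) := by
    intro h
    have := h39_ext (φ.toLinearMap ∘ₗ (hs n K 1).subtype) ((hs (n - r) K 1).subtype ∘ₗ π) (by
      intro v
      simp [φ])
    exact LinearMap.congr_fun this h
  have hψ1 : ∀ h : hs (n - r) K 1, ψ (h : R (n - r) K) = (σ h : R n K) := by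
    intro h
    have := h39_ext (ψ.toLinearMap ∘ₗ (hs (n - r) K 1).subtype) ((hs n K 1).subtype ∘ₗ σ) (by
      intro v
      simp [ψ])
    exact LinearMap.congr_fun this h
  have hφψ : ∀ g, φ (ψ g) = g := by
    intro g
    have h1 : φ.comp ψ = AlgHom.id K _ := by
      apply MvPolynomial.algHom_ext
      intro j
      have h2 : ψ (X j) = (σ ⟨X j, isHomogeneous_X K j⟩ : R n K) := by simp [ψ]
      rw [AlgHom.comp_apply, h2, hφ1, hσ']
      rfl
    exact AlgHom.congr_fun h1 g
  have hφd : ∀ m, ∀ f ∈ hs n K m, φ f ∈ hs (n - r) K m := by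
    intro m f hf
    have := IsHomogeneous.aeval (n := 1) hf
      (fun v => (π ⟨X v, isHomogeneous_X K v⟩ : R (n - r) K)) (fun v => (π _).2)
    rw [one_mul] at this
    exact this
  have hψd : ∀ m, ∀ f ∈ hs (n - r) K m, ψ f ∈ hs n K m := by
    intro m f hf
    have := IsHomogeneous.aeval (n := 1) hf
      (fun v => (σ ⟨X v, isHomogeneous_X K v⟩ : R n K)) (fun v => (σ _).2)
    rw [one_mul] at this
    exact this
  let I : Ideal (R n K) := Ideal.span (Set.range l)
  have hW0I : ∀ h ∈ W0, (h : R n K) ∈ I := by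
    intro h hh
    induction hh using Submodule.span_induction with
    | mem x hx => obtain ⟨i, rfl⟩ := hx; exact Ideal.subset_span ⟨i, rfl⟩
    | zero => exact I.zero_mem
    | add x y _ _ hx hy => exact I.add_mem hx hy
    | smul a x _ hx => 
      have : ((a • x : hs n K 1) : R n K) = C a * (x : R n K) := by
        rw [← smul_eq_C_mul]; rfl
      rw [this]
      exact I.mul_mem_left _ hx
  have hdiff : ∀ f, f - ψ (φ f) ∈ I := by
    intro f
    have h1 : (Ideal.Quotient.mkₐ K I).comp (ψ.comp φ) = Ideal.Quotient.mkₐ K I := by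
      apply MvPolynomial.algHom_ext
      intro v
      have h2 : φ (X v) = (π ⟨X v, isHomogeneous_X K v⟩ : R (n - r) K) := by simp [φ]
      rw [AlgHom.comp_apply, AlgHom.comp_apply, h2, hψ1]
      symm
      change Ideal.Quotient.mk I _ = Ideal.Quotient.mk I _
      rw [Ideal.Quotient.eq]
      have h3 : (⟨X v, isHomogeneous_X K v⟩ : hs n K 1) - σ (π ⟨X v, isHomogeneous_X K v⟩) ∈ W0 := by
        rw [← hπk, map_sub, hσ', sub_self]
      exact hW0I _ h3
    have h2 := AlgHom.congr_fun h1 f
    rw [AlgHom.comp_apply, AlgHom.comp_apply] at h2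
    have h3 : Ideal.Quotient.mk I (ψ (φ f)) = Ideal.Quotient.mk I f := h2
    rw [← Ideal.Quotient.eq]
    exact h3.symm
  set W : Submodule K (R n K) := Submodule.span K {p | ∃ i, ∃ f ∈ hs n K d, p = l i * f} with hW
  have hWle : W ≤ hs n K (d + 1) := by
    rw [hW, Submodule.span_le]
    rintro p ⟨i, f, hf, rfl⟩
    have := IsHomogeneous.mul (hl i) hf
    rw [add_comm] at this
    exact this
  have hφl : ∀ i, φ (l i) = 0 := by
    intro i
    have h1 := hφ1 (l' i)
    have h2 : π (l' i) = 0 := (hπk _).mpr (Submodule.subset_span ⟨i, rfl⟩)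
    rw [h2] at h1
    exact h1
  have hWφ : ∀ p ∈ W, φ p = 0 := by
    intro p hp
    have : W ≤ LinearMap.ker φ.toLinearMap := by
      rw [hW, Submodule.span_le]
      rintro p ⟨i, f, hf, rfl⟩
      simp [hφl i]
    exact this hp
  have hker : ∀ f ∈ hs n K (d + 1), φ f = 0 → f ∈ W := by
    intro f hf h0
    have h1 := hdiff f
    rw [h0, map_zero, sub_zero] at h1
    exact h39_homog_part l hl d f hf h1
  let T : hs n K (d + 1) →ₗ[K] hs (n - r) K (d + 1) :=
    LinearMap.restrict φ.toLinearMap (hφd (d + 1))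
  have hT : Function.Surjective T := by
    rintro ⟨g, hg⟩
    exact ⟨⟨ψ g, hψd _ g hg⟩, Subtype.ext (hφψ g)⟩
  have hTk : LinearMap.ker T = W.comap (hs n K (d + 1)).subtype := by
    ext ⟨f, hf⟩
    rw [LinearMap.mem_ker, Submodule.mem_comap]
    constructor
    · intro h
      exact hker f hf (congrArg Subtype.val h)
    · intro h
      exact Subtype.ext (hWφ f h)
  have h1 := LinearMap.finrank_range_add_finrank_ker T
  rw [LinearMap.range_eq_top.mpr hT, finrank_top, hTk,
    (Submodule.comapSubtypeEquivOfLe hWle).finrank_eq, h39_finrank_hs] at h1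
  rw [← h1, add_comm]
  congr 2

end

end Pool.Agent.K4H40.NS
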